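import Pool.Agent.Lib.TA.Ord
import Pool.Agent.Lib.LU1_h15.ExtVal_H1

/-!
# TANK G, block C: root multiplicities by one monomial valuation

`F = k(u)`, `K / F` finite separable, `H ∈ K` with `N(H) = P(u) / Q(u)`, `Q(0) ≠ 0`.  If the
monomials `T ^ j`, `j < M`, of `P` vanish (`T = u t` one of the coordinates) then `M ≤ q B`, where
`B` bounds the number of conjugates of `H` of positive value and `q` bounds `min M (ω H)` for every
real valuation `ω` of `K` over the monomial valuation with the weights `1` on `T` and `M` on the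
other coordinates.
-/

set_option autoImplicit false

open Pool.Agent.H15JM (RVal)

open Pool.Agent.TA (wo toAdj exists_weighted toAdj_injective wo_le exists_wo wo_mul wo_X)

namespace Pool.Agent.TGh32

universe u

/-! ### Pull back of a real valuation -/

/-- The restriction of a real valuation along a homomorphism of fields. -/
def pull {K L : Type*} [Field K] [Field L] (φ : K →+* L) (w : RVal L) : RVal K where
  toFun x := w (φ x)
  map_mul' x y hx hy := by
    rw [map_mul]
    exact w.map_mul ((map_ne_zero φ).2 hx) ((map_ne_zero φ).2 hy)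
  map_add' x y hx hy hxy := by
    rw [map_add]
    refine w.map_add ((map_ne_zero φ).2 hx) ((map_ne_zero φ).2 hy) ?_
    rw [← map_add]
    exact (map_ne_zero φ).2 hxy

@[simp] theorem pull_apply {K L : Type*} [Field K] [Field L] (φ : K →+* L) (w : RVal L) (x : K) :
    pull φ w x = w (φ x) := rfl

/-! ### Norms and real valuations -/

section Norm

variable {F K Ω : Type u} [Field F] [Field K] [Field Ω] [Algebra F K] [Algebra F Ω]
  [FiniteDimensional F K] [Algebra.IsSeparable F K] [IsAlgClosed Ω]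

theorem val_norm (O : RVal Ω) {H : K} (hH : H ≠ 0) :
    O (algebraMap F Ω (Algebra.norm F H)) = ∑ s : K →ₐ[F] Ω, O (s H) := by
  rw [Algebra.norm_eq_prod_embeddings F Ω H]
  exact O.map_prod _ _ fun s _ => (map_ne_zero s).2 hH

end Norm

/-! ### The count -/

/-- Nonnegative numbers whose sum is at least `M`, whose truncations at `M` are at most `q`, at
most `B` of them positive. -/
theorem count {ι : Type*} (S : Finset ι) (f : ι → ℝ) (M q : ℝ) (B : ℕ) (hM : 0 ≤ M) (hq : 0 ≤ q)
    (h0 : ∀ s ∈ S, 0 ≤ f s) (hsum : M ≤ ∑ s ∈ S, f s)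
    (hq' : ∀ s ∈ S, 0 < f s → min M (f s) ≤ q)
    (hB : ∀ T ⊆ S, (∀ s ∈ T, 0 < f s) → T.card ≤ B) : M ≤ q * B := by
  classical
  have h1 : M ≤ ∑ s ∈ S, min M (f s) := by
    by_cases h : ∃ s ∈ S, M ≤ f s
    · obtain ⟨s, hs, hMs⟩ := h
      have h2 : min M (f s) = M := min_eq_left hMs
      calc M = min M (f s) := h2.symm
        _ ≤ ∑ s ∈ S, min M (f s) := by
          refine Finset.single_le_sum (f := fun s => min M (f s)) (fun i hi => ?_) hs
          exact le_min hM (h0 i hi)
    · push Not at h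
      calc M ≤ ∑ s ∈ S, f s := hsum
        _ = ∑ s ∈ S, min M (f s) := Finset.sum_congr rfl fun s hs => by
          rw [min_eq_right (h s hs).le]
  refine h1.trans ?_
  have h3 : ∑ s ∈ S, min M (f s) ≤ ∑ s ∈ S.filter (fun s => 0 < f s), q := by
    rw [Finset.sum_filter]
    refine Finset.sum_le_sum fun s hs => ?_
    by_cases h : 0 < f s
    · rw [if_pos h]
      exact hq' s hs h
    · rw [if_neg h]
      exact (min_le_right _ _).trans (not_lt.1 h)
  refine h3.trans ?_
  rw [Finset.sum_const, nsmul_eq_mul, mul_comm]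
  refine mul_le_mul_of_nonneg_left ?_ hq
  exact_mod_cast hB _ (Finset.filter_subset _ _) fun s hs => (Finset.mem_filter.1 hs).2

/-! ### The weights -/

section Weights

variable {k σ : Type*} [Field k] [DecidableEq σ]

/-- The weights: `1` on `t`, `M` on the other variables. -/
def wt (t : σ) (M : ℕ) : σ → ℕ := fun i => if i = t then 1 else M

theorem wt_self (t : σ) (M : ℕ) : wt t M t = 1 := if_pos rfl

theorem wt_of_ne {t i : σ} (M : ℕ) (h : i ≠ t) : wt t M i = M := if_neg h

theorem eq_single_or_le (t : σ) (M : ℕ) (d : σ →₀ ℕ) :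
    d = Finsupp.single t (d t) ∨ M ≤ Finsupp.weight (wt t M) d := by
  by_cases h : ∃ i, i ≠ t ∧ d i ≠ 0
  · right
    obtain ⟨i, hi, hdi⟩ := h
    have h1 : wt t M i ≤ Finsupp.weight (wt t M) d := Finsupp.le_weight_of_ne_zero' _ hdi
    rwa [wt_of_ne M hi] at h1
  · left
    push Not at h
    ext i
    by_cases hi : i = t
    · subst hi
      rw [Finsupp.single_eq_same]
    · rw [h i hi, Finsupp.single_eq_of_ne hi]

/-- If the monomials `T ^ j`, `j < M`, do not occur in `P` then the weighted order of `P` is at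
least `M`. -/
theorem le_wo (t : σ) (M : ℕ) {P : MvPolynomial σ k} (hP : P ≠ 0)
    (h : ∀ j < M, MvPolynomial.coeff (Finsupp.single t j) P = 0) : M ≤ wo (wt t M) P := by
  obtain ⟨d, hd, hd'⟩ := exists_wo (wt t M) hP
  rw [← hd']
  rcases eq_single_or_le t M d with h1 | h1
  · rw [h1, Finsupp.weight_single, wt_self, smul_eq_mul, mul_one]
    by_contra hlt
    push Not at hlt
    rw [MvPolynomial.mem_support_iff, h1] at hd
    exact hd (h _ hlt)
  · exact h1

omit [DecidableEq σ] in
theorem wo_eq_zero (w : σ → ℕ) {Q : MvPolynomial σ k} (hQ : MvPolynomial.constantCoeff Q ≠ 0) :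
    wo w Q = 0 := by
  have h1 : (0 : σ →₀ ℕ) ∈ Q.support := by
    rw [MvPolynomial.mem_support_iff]
    exact hQ
  have h2 := wo_le w h1
  rw [map_zero] at h2
  exact Nat.le_zero.1 h2

end Weights

/-! ### The main inequality -/

section Main

variable {k K Ω : Type u} {σ : Type*} [Field k] [Field K] [Algebra k K] [Field Ω] [Algebra K Ω]
  [IsAlgClosed Ω] [Algebra.IsAlgebraic K Ω] [DecidableEq σ]

omit [IsAlgClosed Ω] [DecidableEq σ] in
/-- The monomial valuation with the weights `w`, extended to an algebraic closure. -/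
theorem exists_monomial {u : σ → K} (hi : AlgebraicIndependent k u) (F : IntermediateField k K)
    (hu : ∀ i, u i ∈ F) (hF : F = IntermediateField.adjoin k (Set.range u))
    [FiniteDimensional F K] (w : σ → ℕ) :
    ∃ O : RVal Ω, ∀ P : MvPolynomial σ k, P ≠ 0 →
      O (algebraMap K Ω (MvPolynomial.aeval u P)) = wo w P := by
  obtain ⟨o, ho⟩ := exists_weighted hi F hu hF w
  obtain ⟨O₁, hO₁⟩ := Pool.Agent.LU1.exists_extVal F K o
  obtain ⟨O, hO⟩ := Pool.Agent.LU1.exists_extVal K Ω O₁
  refine ⟨O, fun P hP => ?_⟩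
  have hne : toAdj u F hu P ≠ 0 := by
    intro h
    exact hP (toAdj_injective hi F hu (by rw [h, map_zero]))
  have h1 : (MvPolynomial.aeval u P : K) = algebraMap F K (toAdj u F hu P) := by
    rw [← Pool.Agent.TA.coe_toAdj u F hu]
    rfl
  rw [h1, hO _ ((map_ne_zero _).2 hne), hO₁ _ hne, ho P hP]

/-- **Root multiplicities.** -/
theorem root_mult {u : σ → K} (hi : AlgebraicIndependent k u) (F : IntermediateField k K)
    (hu : ∀ i, u i ∈ F) (hF : F = IntermediateField.adjoin k (Set.range u))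
    [FiniteDimensional F K] [Algebra.IsSeparable F K]
    {H : K} (hH : H ≠ 0) {P Q : MvPolynomial σ k}
    (hPQ : algebraMap F K (Algebra.norm F H) =
      MvPolynomial.aeval u P / MvPolynomial.aeval u Q)
    (hQ : MvPolynomial.constantCoeff Q ≠ 0) (t : σ) (M : ℕ)
    (hP : ∀ j < M, MvPolynomial.coeff (Finsupp.single t j) P = 0) (q : ℝ) (hq : 0 ≤ q) (B : ℕ)
    (h0 : ∀ ω : RVal K, (∀ R : MvPolynomial σ k, R ≠ 0 →
      ω (MvPolynomial.aeval u R) = wo (wt t M) R) → 0 ≤ ω H)
    (h1 : ∀ ω : RVal K, (∀ R : MvPolynomial σ k, R ≠ 0 →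
      ω (MvPolynomial.aeval u R) = wo (wt t M) R) → 0 < ω H → min (M : ℝ) (ω H) ≤ q)
    (hB : ∀ O : RVal Ω, (∀ R : MvPolynomial σ k, R ≠ 0 →
      O (algebraMap K Ω (MvPolynomial.aeval u R)) = wo (wt t M) R) →
      ∀ T : Finset (K →ₐ[F] Ω), (∀ s ∈ T, 0 < O (s H)) → T.card ≤ B) :
    (M : ℝ) ≤ q * B := by
  classical
  obtain ⟨O, hO⟩ := exists_monomial (Ω := Ω) hi F hu hF (wt t M)
  have hs : ∀ s : K →ₐ[F] Ω, ∀ R : MvPolynomial σ k,
      s (MvPolynomial.aeval u R) = algebraMap K Ω (MvPolynomial.aeval u R) := by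
    intro s R
    have h2 : (MvPolynomial.aeval u R : K) = algebraMap F K (toAdj u F hu R) := by
      rw [← Pool.Agent.TA.coe_toAdj u F hu]
      rfl
    rw [h2, s.commutes, ← IsScalarTower.algebraMap_apply]
  have hω : ∀ s : K →ₐ[F] Ω, ∀ R : MvPolynomial σ k, R ≠ 0 →
      pull s.toRingHom O (MvPolynomial.aeval u R) = wo (wt t M) R := by
    intro s R hR
    rw [pull_apply]
    change O (s (MvPolynomial.aeval u R)) = _
    rw [hs s R, hO R hR]
  have hnorm : Algebra.norm F H ≠ 0 := (Algebra.norm_ne_zero_iff).2 hH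
  have hQ0 : Q ≠ 0 := by rintro rfl; exact hQ (map_zero _)
  have haQ : (MvPolynomial.aeval u Q : K) ≠ 0 := fun h => hQ0 (hi (by rw [h, map_zero]))
  have haP : (MvPolynomial.aeval u P : K) ≠ 0 := by
    intro h
    rw [h, zero_div] at hPQ
    exact hnorm ((map_eq_zero _).1 hPQ)
  have hP0 : P ≠ 0 := by rintro rfl; exact haP (map_zero _)
  have hsum : (M : ℝ) ≤ ∑ s : K →ₐ[F] Ω, O (s H) := by
    rw [← val_norm O hH, IsScalarTower.algebraMap_apply F K Ω, hPQ, map_div₀,
      O.map_div ((map_ne_zero _).2 haP) ((map_ne_zero _).2 haQ), hO P hP0, hO Q hQ0,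
      wo_eq_zero _ hQ, Nat.cast_zero, sub_zero]
    exact_mod_cast le_wo t M hP0 hP
  refine count Finset.univ (fun s : K →ₐ[F] Ω => O (s H)) M q B (Nat.cast_nonneg M) hq
    (fun s _ => ?_) hsum (fun s _ hpos => ?_) (fun T _ hT => hB O hO T hT)
  · exact h0 (pull s.toRingHom O) (hω s)
  · exact h1 (pull s.toRingHom O) (hω s) hpos

end Main

end Pool.Agent.TGh32
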